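import Pool.Agent.helper3.FT.Defs

set_option autoImplicit false

/-! Module E1 (Weyl differencing over a box) of the FT project. -/

namespace Pool.Agent.helper3.FT

open Finset

theorem E1_e_add (x y : ℝ) : e (x + y) = e x * e y := by
  unfold e
  rw [← Complex.exp_add]
  congr 1
  push_cast
  ring

theorem E1_e_zero : e 0 = 1 := by
  unfold e
  simp

theorem E1_norm_e (x : ℝ) : ‖e x‖ = 1 := by
  unfold e
  have h : (2 * Real.pi * Complex.I * x : ℂ) = ((2 * Real.pi * x : ℝ) : ℂ) * Complex.I := by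
    push_cast; ring
  rw [h, Complex.norm_exp_ofReal_mul_I]

theorem E1_conj_e (x : ℝ) : (starRingEnd ℂ) (e x) = e (-x) := by
  unfold e
  rw [← Complex.exp_conj]
  congr 1
  simp only [map_mul, Complex.conj_ofReal, Complex.conj_I, map_ofNat]
  push_cast
  ring

theorem E1_e_int (k : ℤ) : e (k : ℝ) = 1 := by
  unfold e
  have : (2 * Real.pi * Complex.I * ((k : ℝ) : ℂ) : ℂ) = k * (2 * Real.pi * Complex.I) := by
    push_cast; ring
  rw [this, Complex.exp_int_mul_two_pi_mul_I]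

theorem E1_norm_sub_one (x : ℝ) : 4 * nd x ≤ ‖e x - 1‖ := by
  have h1 : e x = e (x - round x) := by
    have h := E1_e_add (x - round x) (round x : ℝ)
    rw [E1_e_int, mul_one] at h
    rw [← h]
    congr 1
    ring
  rw [h1]
  have h2 : e (x - round x) = Complex.exp (Complex.I * ((2 * Real.pi * (x - round x) : ℝ) : ℂ)) := by
    unfold e
    congr 1
    push_cast
    ring
  rw [h2, Complex.norm_exp_I_mul_ofReal_sub_one, Real.norm_eq_abs, abs_mul, abs_of_pos (by norm_num : (0:ℝ) < 2)]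
  have h3 : |x - round x| ≤ 1 / 2 := abs_sub_round x
  have hpi := Real.pi_pos
  have h4 : |Real.pi * (x - round x)| ≤ Real.pi / 2 := by
    rw [abs_mul, abs_of_pos hpi]
    nlinarith
  have h5 := Real.mul_abs_le_abs_sin h4
  rw [abs_mul, abs_of_pos hpi] at h5
  have h6 : 2 / Real.pi * (Real.pi * |x - round x|) = 2 * |x - round x| := by
    field_simp
  rw [h6] at h5
  have h7 : 2 * Real.pi * (x - round x) / 2 = Real.pi * (x - round x) := by ring
  rw [h7]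
  unfold nd
  linarith

theorem E1_geom_mul (x : ℝ) (α : ℤ) (n : ℕ) :
    (∑ j ∈ range n, e (x * ((α + j : ℤ) : ℝ))) * (e x - 1) = e (x * ((α + n : ℤ) : ℝ)) - e (x * α) := by
  induction n with
  | zero => simp
  | succ n ih =>
    rw [sum_range_succ, add_mul, ih]
    have : e (x * ((α + (n + 1 : ℕ) : ℤ) : ℝ)) = e (x * ((α + n : ℤ) : ℝ)) * e x := by
      rw [← E1_e_add]
      congr 1
      push_cast
      ring
    rw [this]
    ring

theorem E1_Icc_eq (α β : ℤ) (f : ℤ → ℂ) :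
    ∑ m ∈ Icc α β, f m = ∑ j ∈ range (β + 1 - α).toNat, f (α + j) := by
  have : Icc α β = (range (β + 1 - α).toNat).image (fun j : ℕ => α + (j : ℤ)) := by
    ext m
    simp only [mem_Icc, mem_image, mem_range]
    constructor
    · rintro ⟨h1, h2⟩
      exact ⟨(m - α).toNat, by omega, by omega⟩
    · rintro ⟨j, hj, rfl⟩
      omega
  rw [this, sum_image]
  intro a _ b _ hab
  simpa using hab

/-- geometric sums over an interval with at most `2 M + 1` elements -/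
theorem E1_geom (M : ℕ) (x : ℝ) (α β : ℤ) (h : β + 1 - α ≤ 2 * M + 1) :
    ‖∑ m ∈ Icc α β, e (x * m)‖ ≤ wt M x := by
  rw [E1_Icc_eq]
  set n := (β + 1 - α).toNat with hn
  have hn' : n ≤ 2 * M + 1 := by omega
  have hn2 : (n : ℝ) ≤ 2 * M + 1 := by exact_mod_cast hn'
  unfold wt
  split_ifs with hc
  · calc ‖∑ j ∈ range n, e (x * ((α + j : ℤ) : ℝ))‖ ≤ ∑ j ∈ range n, ‖e (x * ((α + j : ℤ) : ℝ))‖ := norm_sum_le _ _
      _ = n := by simp [E1_norm_e]
      _ ≤ 2 * M + 1 := hn2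
  · push Not at hc
    have hnd0 : 0 ≤ nd x := abs_nonneg _
    have hnd : 0 < nd x := by
      rcases hnd0.lt_or_eq with h0 | h0
      · exact h0
      · rw [← h0] at hc; norm_num at hc
    have h1 := E1_geom_mul x α n
    have h2 : ‖∑ j ∈ range n, e (x * ((α + j : ℤ) : ℝ))‖ * ‖e x - 1‖ ≤ 2 := by
      rw [← norm_mul, h1]
      calc ‖e (x * ((α + n : ℤ) : ℝ)) - e (x * α)‖ ≤ ‖e (x * ((α + n : ℤ) : ℝ))‖ + ‖e (x * α)‖ := norm_sub_le _ _
        _ = 2 := by rw [E1_norm_e, E1_norm_e]; norm_num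
    have h3 := E1_norm_sub_one x
    rw [le_div_iff₀ (by positivity)]
    have h4 : ‖∑ j ∈ range n, e (x * ((α + j : ℤ) : ℝ))‖ * (4 * nd x) ≤ 2 :=
      le_trans (mul_le_mul_of_nonneg_left h3 (norm_nonneg _)) h2
    linarith

/-- reindexing of a double sum by the difference -/
theorem E1_reindex (M : ℕ) (φ : ℤ → ℤ → ℂ) :
    ∑ m ∈ Icc (-(M : ℤ)) M, ∑ m' ∈ Icc (-(M : ℤ)) M, φ m m' =
      ∑ u ∈ Icc (-(2 * M : ℤ)) (2 * M), ∑ m' ∈ Icc (max (-(M : ℤ)) (-M - u)) (min (M : ℤ) (M - u)),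
        φ (m' + u) m' := by
  rw [← sum_product', sum_sigma']
  refine sum_bij' (fun p _ => ⟨p.1 - p.2, p.2⟩) (fun q _ => (q.2 + q.1, q.2)) ?_ ?_ ?_ ?_ ?_
  · rintro ⟨m, m'⟩ h
    simp only [mem_product, mem_Icc] at h
    simp only [mem_sigma, mem_Icc, max_le_iff, le_min_iff]
    omega
  · rintro ⟨u, m'⟩ h
    simp only [mem_sigma, mem_Icc, max_le_iff, le_min_iff] at h
    simp only [mem_product, mem_Icc]
    omega
  · rintro ⟨m, m'⟩ _
    simp
  · rintro ⟨u, m'⟩ _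
    simp
  · rintro ⟨m, m'⟩ _
    simp

/-- E1 -/
theorem weyl (M G : ℕ) (a b c : ℝ) : ‖ES M G a b c‖ ^ 2 ≤
    ∑ u ∈ Icc (-(2 * M : ℤ)) (2 * M), ∑ v ∈ Icc (-(2 * G : ℤ)) (2 * G),
      wt M (2 * a * u + b * v) * wt G (b * u + 2 * c * v) := by
  have h0 : ‖ES M G a b c‖ ^ 2 = ‖ES M G a b c * (starRingEnd ℂ) (ES M G a b c)‖ := by
    rw [norm_mul, RCLike.norm_conj, sq]
  have h1 : ES M G a b c * (starRingEnd ℂ) (ES M G a b c) =
      ∑ m ∈ Icc (-(M : ℤ)) M, ∑ m' ∈ Icc (-(M : ℤ)) M, ∑ g ∈ Icc (-(G : ℤ)) G, ∑ g' ∈ Icc (-(G : ℤ)) G,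
        e ((a * m ^ 2 + b * m * g + c * g ^ 2) - (a * m' ^ 2 + b * m' * g' + c * g' ^ 2)) := by
    unfold ES
    rw [map_sum, sum_mul_sum]
    refine sum_congr rfl fun m _ => sum_congr rfl fun m' _ => ?_
    rw [map_sum, sum_mul_sum]
    refine sum_congr rfl fun g _ => sum_congr rfl fun g' _ => ?_
    rw [E1_conj_e, ← E1_e_add]
    congr 1
  have h2 : ∑ m ∈ Icc (-(M : ℤ)) M, ∑ m' ∈ Icc (-(M : ℤ)) M, ∑ g ∈ Icc (-(G : ℤ)) G, ∑ g' ∈ Icc (-(G : ℤ)) G,
        e ((a * m ^ 2 + b * m * g + c * g ^ 2) - (a * m' ^ 2 + b * m' * g' + c * g' ^ 2)) =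
      ∑ u ∈ Icc (-(2 * M : ℤ)) (2 * M), ∑ v ∈ Icc (-(2 * G : ℤ)) (2 * G),
        e (a * u ^ 2 + b * u * v + c * v ^ 2) *
        ((∑ m' ∈ Icc (max (-(M : ℤ)) (-M - u)) (min (M : ℤ) (M - u)), e ((2 * a * u + b * v) * m')) *
        (∑ g' ∈ Icc (max (-(G : ℤ)) (-G - v)) (min (G : ℤ) (G - v)), e ((b * u + 2 * c * v) * g'))) := by
    rw [E1_reindex M (fun m m' => ∑ g ∈ Icc (-(G : ℤ)) G, ∑ g' ∈ Icc (-(G : ℤ)) G,
        e ((a * m ^ 2 + b * m * g + c * g ^ 2) - (a * m' ^ 2 + b * m' * g' + c * g' ^ 2)))]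
    refine sum_congr rfl fun u _ => ?_
    have h3 : ∀ m' : ℤ, ∑ g ∈ Icc (-(G : ℤ)) G, ∑ g' ∈ Icc (-(G : ℤ)) G,
        e ((a * (m' + u : ℤ) ^ 2 + b * (m' + u : ℤ) * g + c * g ^ 2) - (a * m' ^ 2 + b * m' * g' + c * g' ^ 2)) =
        ∑ v ∈ Icc (-(2 * G : ℤ)) (2 * G), ∑ g' ∈ Icc (max (-(G : ℤ)) (-G - v)) (min (G : ℤ) (G - v)),
        e (a * u ^ 2 + b * u * v + c * v ^ 2) * (e ((2 * a * u + b * v) * m') * e ((b * u + 2 * c * v) * g')) := by
      intro m'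
      rw [E1_reindex G (fun g g' => e ((a * (m' + u : ℤ) ^ 2 + b * (m' + u : ℤ) * g + c * g ^ 2) -
        (a * m' ^ 2 + b * m' * g' + c * g' ^ 2)))]
      refine sum_congr rfl fun v _ => sum_congr rfl fun g' _ => ?_
      rw [← E1_e_add, ← E1_e_add]
      congr 1
      push_cast
      ring
    rw [sum_congr rfl fun m' _ => h3 m']
    rw [sum_comm]
    refine sum_congr rfl fun v _ => ?_
    rw [sum_mul_sum, mul_sum]
    refine sum_congr rfl fun m' _ => ?_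
    rw [mul_sum]
  rw [h0, h1, h2]
  refine (norm_sum_le _ _).trans (sum_le_sum fun u _ => (norm_sum_le _ _).trans (sum_le_sum fun v _ => ?_))
  rw [norm_mul, E1_norm_e, one_mul, norm_mul]
  have hwt : ∀ (N : ℕ) (x : ℝ), 0 ≤ wt N x := by
    intro N x
    unfold wt
    split_ifs
    · positivity
    · have : 0 ≤ nd x := abs_nonneg _
      positivity
  refine mul_le_mul (E1_geom M _ _ _ ?_) (E1_geom G _ _ _ ?_) (norm_nonneg _) (hwt _ _)
  · have h5 : min (M : ℤ) (M - u) ≤ M := min_le_left _ _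
    have h6 : -(M : ℤ) ≤ max (-(M : ℤ)) (-M - u) := le_max_left _ _
    omega
  · have h5 : min (G : ℤ) (G - v) ≤ G := min_le_left _ _
    have h6 : -(G : ℤ) ≤ max (-(G : ℤ)) (-G - v) := le_max_left _ _
    omega

end Pool.Agent.helper3.FT
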