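import Pool.Agent.helper8.FT.P1
import Pool.Agent.helper97.FT.P5c
import Pool.Agent.helper96.FT.P6a
import Pool.Agent.helper96.FT.P7
import Pool.Agent.helper88.FT.PairCount
import Pool.Agent.helper47.RA.Num

set_option autoImplicit false

/-! Module P6c (count of the dual points) of the FT project. -/

namespace Pool.Agent.helper3.FT

open Finset

theorem P6c_two_pow (n : ℕ) (hn : 0 < n) : (2 : ℝ) ^ n.primeFactors.card ≤ (n.divisors.card : ℝ) := by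
  rw [Nat.card_divisors hn.ne']
  have : 2 ^ n.primeFactors.card ≤ ∏ x ∈ n.primeFactors, (n.factorization x + 1) := by
    apply Finset.pow_card_le_prod
    intro p hp
    have h1 := Nat.prime_of_mem_primeFactors hp
    have h2 := Nat.dvd_of_mem_primeFactors hp
    have := h1.factorization_pos_of_dvd hn.ne' h2
    omega
  exact_mod_cast this

theorem P6c_three_pow (n : ℕ) (hn : 0 < n) : (3 : ℝ) ^ n.primeFactors.card ≤ (n.divisors.card : ℝ) ^ 2 := by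
  calc (3 : ℝ) ^ n.primeFactors.card ≤ (2 ^ 2) ^ n.primeFactors.card := by
        apply pow_le_pow_left₀ (by norm_num); norm_num
    _ = (2 ^ n.primeFactors.card) ^ 2 := by rw [← pow_mul, ← pow_mul, mul_comm]
    _ ≤ _ := pow_le_pow_left₀ (by positivity) (P6c_two_pow n hn) 2

/-- divisor bound for numbers of polynomial size -/
theorem P6c_div (δ : ℝ) (hδ : 0 < δ) (B : ℝ) (hB : 1 ≤ B) (j : ℕ) : ∃ C : ℝ, 1 ≤ C ∧ ∀ T : ℕ, 1 ≤ T →
    ∀ n : ℕ, 0 < n → (n : ℝ) ≤ B * (T : ℝ) ^ j → (n.divisors.card : ℝ) ≤ C * (T : ℝ) ^ δ := by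
  obtain ⟨C, hC1, hC⟩ := Pool.Agent.helper47.RA.card_divisors_le (δ / (j + 1)) (by positivity)
  refine ⟨C * B ^ (δ / (j + 1)), ?_, ?_⟩
  · exact one_le_mul_of_one_le_of_one_le hC1 (Real.one_le_rpow hB (by positivity))
  · intro T hT n hn hnB
    have hT' : (1 : ℝ) ≤ T := by exact_mod_cast hT
    calc (n.divisors.card : ℝ) ≤ C * (n : ℝ) ^ (δ / (j + 1)) := hC n hn
      _ ≤ C * (B * (T : ℝ) ^ j) ^ (δ / (j + 1)) := by
          apply mul_le_mul_of_nonneg_left _ (by linarith)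
          exact Real.rpow_le_rpow (by positivity) hnB (by positivity)
      _ = C * B ^ (δ / (j + 1)) * ((T : ℝ) ^ j) ^ (δ / (j + 1)) := by
          rw [Real.mul_rpow (by linarith) (by positivity)]; ring
      _ ≤ C * B ^ (δ / (j + 1)) * (T : ℝ) ^ δ := by
          apply mul_le_mul_of_nonneg_left _ (by positivity)
          rw [← Real.rpow_natCast, ← Real.rpow_mul (by linarith)]
          apply Real.rpow_le_rpow_of_exponent_le hT'
          rw [mul_div_assoc', div_le_iff₀ (by positivity)]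
          nlinarith

/-- logarithm bound -/
theorem P6c_log (δ : ℝ) (hδ : 0 < δ) : ∃ C : ℝ, 1 ≤ C ∧ ∀ T K : ℕ, 1 ≤ K → K ≤ T →
    1 + Real.log ((3 * K : ℕ) : ℝ) ≤ C * (T : ℝ) ^ δ := by
  refine ⟨1 + 3 ^ δ / δ, by have : 0 < (3 : ℝ) ^ δ / δ := by positivity
                            linarith, ?_⟩
  intro T K hK hKT
  have hT : (1 : ℝ) ≤ T := by exact_mod_cast hK.trans hKT
  have hK' : (K : ℝ) ≤ T := by exact_mod_cast hKT
  have hK0 : (0 : ℝ) < K := by exact_mod_cast hK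
  have h1 : Real.log ((3 * K : ℕ) : ℝ) ≤ (3 * T : ℝ) ^ δ / δ := by
    calc Real.log ((3 * K : ℕ) : ℝ) ≤ Real.log (3 * T) := by
          apply Real.log_le_log
          · push_cast; positivity
          · push_cast; linarith
      _ ≤ (3 * T : ℝ) ^ δ / δ := Real.log_le_rpow_div (by positivity) hδ
  have h2 : (1 : ℝ) ≤ (T : ℝ) ^ δ := Real.one_le_rpow hT hδ.le
  calc 1 + Real.log ((3 * K : ℕ) : ℝ) ≤ (T : ℝ) ^ δ + (3 * T : ℝ) ^ δ / δ := by linarith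
    _ = (1 + 3 ^ δ / δ) * (T : ℝ) ^ δ := by
      rw [Real.mul_rpow (by norm_num) (by linarith)]; ring

open Classical in
/-- the condition of membership in `dualSet` -/
noncomputable def P6c_c (h : ℕ) (p : ℕ × ℕ) (v : ℤ × ℤ × ℤ × ℤ) : ℝ :=
  if (Nat.Coprime h (5 * (p.1 * p.2)) ∧
      ((h : ℤ) ∣ F1 v.1 v.2.1 v.2.2.1 p.1 p.2) ∧
      ((h : ℤ) ∣ F2 v.2.1 v.2.2.1 v.2.2.2 p.1 p.2) ∧
      (F1 v.1 v.2.1 v.2.2.1 p.1 p.2 ≠ 0 ∨
        F2 v.2.1 v.2.2.1 v.2.2.2 p.1 p.2 ≠ 0)) then 1 else 0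

theorem P6c_card (N K y P : ℕ) : ((dualSet N K y P).card : ℝ) =
    ∑ v ∈ vbox N K, ∑ h ∈ Ico P (2 * P), ∑ p ∈ pairs N K y, P6c_c h p v := by
  unfold dualSet
  rw [card_filter, sum_product]
  push_cast
  rw [sum_comm (s := vbox N K)]
  refine sum_congr rfl fun h _ => ?_
  rw [sum_product, sum_comm (s := vbox N K)]
  refine sum_congr rfl fun p _ => sum_congr rfl fun v _ => ?_
  unfold P6c_c
  split_ifs <;> tauto

theorem P6c_c_nonneg (h : ℕ) (p : ℕ × ℕ) (v : ℤ × ℤ × ℤ × ℤ) : 0 ≤ P6c_c h p v := by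
  unfold P6c_c
  split_ifs <;> norm_num

theorem P6c_mem_pairs {N K y : ℕ} {p : ℕ × ℕ} (hp : p ∈ pairs N K y) :
    1 ≤ p.1 ∧ p.1 ≤ N ∧ 1 ≤ p.2 ∧ p.2 ≤ K ∧ y ∣ p.1 * p.2 := by
  unfold pairs at hp
  simp only [mem_filter, mem_product, mem_Icc] at hp
  tauto

theorem P6c_mem_vbox {N K : ℕ} {v : ℤ × ℤ × ℤ × ℤ} (hv : v ∈ vbox N K) :
    |v.1| ≤ 3 * K ∧ |v.2.1| ≤ 3 * K ∧ |v.2.2.1| ≤ 15 * N ∧ |v.2.2.2| ≤ 15 * N := by
  unfold vbox at hv
  simp only [mem_product, mem_Icc] at hv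
  simp only [abs_le]
  tauto

/-- size of the resultant -/
theorem P6c_Rf_le {T N K : ℕ} (hKN : K ≤ N) (hNT : N ≤ T) {v : ℤ × ℤ × ℤ × ℤ} (hv : v ∈ vbox N K) :
    |Rf v.1 v.2.1 v.2.2.1 v.2.2.2| ≤ 400000000 * (T : ℤ) ^ 6 := by
  obtain ⟨h1, h2, h3, h4⟩ := P6c_mem_vbox hv
  obtain ⟨A, A', B, X⟩ := v
  simp only at h1 h2 h3 h4 ⊢
  have hK : (K : ℤ) ≤ T := by exact_mod_cast hKN.trans hNT
  have hN : (N : ℤ) ≤ T := by exact_mod_cast hNT
  have hT : (0 : ℤ) ≤ T := by positivity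
  have a1 : |A| ≤ 3 * T := by linarith
  have a2 : |A'| ≤ 3 * T := by linarith
  have a3 : |B| ≤ 15 * T := by linarith
  have a4 : |X| ≤ 15 * T := by linarith
  have hP : |A' * B| ≤ 45 * (T : ℤ) ^ 2 := by
    rw [abs_mul]
    calc |A'| * |B| ≤ (3 * T) * (15 * T) := mul_le_mul a2 a3 (abs_nonneg _) (by positivity)
      _ = _ := by ring
  have hQ : |A * X| ≤ 45 * (T : ℤ) ^ 2 := by
    rw [abs_mul]
    calc |A| * |X| ≤ (3 * T) * (15 * T) := mul_le_mul a1 a4 (abs_nonneg _) (by positivity)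
      _ = _ := by ring
  have hB5 : |A * B ^ 5| ≤ 3 * T * (15 * (T : ℤ)) ^ 5 := by
    rw [abs_mul, abs_pow]
    exact mul_le_mul a1 (pow_le_pow_left₀ (abs_nonneg _) a3 5) (by positivity) (by positivity)
  have hX5 : |A' ^ 5 * X| ≤ (3 * (T : ℤ)) ^ 5 * (15 * T) := by
    rw [abs_mul, abs_pow]
    exact mul_le_mul (pow_le_pow_left₀ (abs_nonneg _) a2 5) a4 (by positivity) (by positivity)
  have t1 : |(A' * B) ^ 3| ≤ (45 * (T : ℤ) ^ 2) ^ 3 := by
    rw [abs_pow]; exact pow_le_pow_left₀ (abs_nonneg _) hP 3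
  have t2 : |(A' * B) ^ 2 * (A * X)| ≤ (45 * (T : ℤ) ^ 2) ^ 3 := by
    rw [abs_mul, abs_pow]
    calc |A' * B| ^ 2 * |A * X| ≤ (45 * (T : ℤ) ^ 2) ^ 2 * (45 * (T : ℤ) ^ 2) :=
          mul_le_mul (pow_le_pow_left₀ (abs_nonneg _) hP 2) hQ (abs_nonneg _) (by positivity)
      _ = _ := by ring
  have t3 : |(A' * B) * (A * X) ^ 2| ≤ (45 * (T : ℤ) ^ 2) ^ 3 := by
    rw [abs_mul, abs_pow]
    calc |A' * B| * |A * X| ^ 2 ≤ (45 * (T : ℤ) ^ 2) * (45 * (T : ℤ) ^ 2) ^ 2 :=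
          mul_le_mul hP (pow_le_pow_left₀ (abs_nonneg _) hQ 2) (by positivity) (by positivity)
      _ = _ := by ring
  have t4 : |(A * X) ^ 3| ≤ (45 * (T : ℤ) ^ 2) ^ 3 := by
    rw [abs_pow]; exact pow_le_pow_left₀ (abs_nonneg _) hQ 3
  rw [abs_le] at t1 t2 t3 t4 hB5 hX5 ⊢
  have e1 : (45 * (T : ℤ) ^ 2) ^ 3 = 91125 * (T : ℤ) ^ 6 := by ring
  have e2 : 3 * T * (15 * (T : ℤ)) ^ 5 = 2278125 * (T : ℤ) ^ 6 := by ring
  have e3 : (3 * (T : ℤ)) ^ 5 * (15 * T) = 3645 * (T : ℤ) ^ 6 := by ring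
  rw [e1] at t1 t2 t3 t4
  rw [e2] at hB5
  rw [e3] at hX5
  have hT6 : (0 : ℤ) ≤ (T : ℤ) ^ 6 := by positivity
  unfold Rf
  constructor
  · linarith [t1.1, t2.1, t3.2, t4.1, hB5.2, hX5.2]
  · linarith [t1.2, t2.2, t3.1, t4.2, hB5.1, hX5.1]

/-- size of the cubic forms -/
theorem P6c_F_le {T N K y : ℕ} (hKN : K ≤ N) (hNT : N ≤ T) {v : ℤ × ℤ × ℤ × ℤ} (hv : v ∈ vbox N K)
    {p : ℕ × ℕ} (hp : p ∈ pairs N K y) :
    |F1 v.1 v.2.1 v.2.2.1 p.1 p.2| ≤ 108 * (T : ℤ) ^ 4 ∧ |F2 v.2.1 v.2.2.1 v.2.2.2 p.1 p.2| ≤ 108 * (T : ℤ) ^ 4 := by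
  obtain ⟨h1, h2, h3, h4⟩ := P6c_mem_vbox hv
  obtain ⟨p1, p2, p3, p4, -⟩ := P6c_mem_pairs hp
  obtain ⟨A, A', B, X⟩ := v
  obtain ⟨n, k⟩ := p
  simp only at h1 h2 h3 h4 p1 p2 p3 p4 ⊢
  have hK : (K : ℤ) ≤ T := by exact_mod_cast hKN.trans hNT
  have hN : (N : ℤ) ≤ T := by exact_mod_cast hNT
  have hT : (0 : ℤ) ≤ T := by positivity
  have a1 : |A| ≤ 3 * T := by linarith
  have a2 : |A'| ≤ 3 * T := by linarith
  have a3 : |B| ≤ 15 * T := by linarith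
  have a4 : |X| ≤ 15 * T := by linarith
  have hn0 : (0 : ℤ) ≤ n := by positivity
  have hk0 : (0 : ℤ) ≤ k := by positivity
  have hn : (n : ℤ) ≤ T := by have : (n : ℤ) ≤ N := by exact_mod_cast p2
                              linarith
  have hk : (k : ℤ) ≤ T := by have : (k : ℤ) ≤ K := by exact_mod_cast p4
                              linarith
  have mon : ∀ (a b : ℕ), a + b = 3 → (n : ℤ) ^ a * (k : ℤ) ^ b ≤ (T : ℤ) ^ 3 := by
    intro a b hab
    calc (n : ℤ) ^ a * (k : ℤ) ^ b ≤ (T : ℤ) ^ a * (T : ℤ) ^ b :=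
          mul_le_mul (pow_le_pow_left₀ hn0 hn a) (pow_le_pow_left₀ hk0 hk b) (by positivity) (by positivity)
      _ = (T : ℤ) ^ 3 := by rw [← pow_add, hab]
  have term : ∀ (Y : ℤ) (c : ℤ), 0 ≤ c → |Y| ≤ c * T → ∀ a b : ℕ, a + b = 3 →
      |Y * ((n : ℤ) ^ a * (k : ℤ) ^ b)| ≤ c * (T : ℤ) ^ 4 := by
    intro Y c hc hY a b hab
    rw [abs_mul, abs_of_nonneg (by positivity : 0 ≤ (n : ℤ) ^ a * (k : ℤ) ^ b)]
    calc |Y| * ((n : ℤ) ^ a * (k : ℤ) ^ b) ≤ (c * T) * (T : ℤ) ^ 3 :=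
          mul_le_mul hY (mon a b hab) (by positivity) (by positivity)
      _ = _ := by ring
  have hT4 : (0 : ℤ) ≤ (T : ℤ) ^ 4 := by positivity
  constructor
  · have u1 := term A 3 (by norm_num) a1 3 0 rfl
    have u2 := term A' 3 (by norm_num) a2 1 2 rfl
    have u3 := term B 15 (by norm_num) a3 0 3 rfl
    rw [abs_le] at u1 u2 u3 ⊢
    unfold F1
    have e : 5 * A * (n : ℤ) ^ 3 - 2 * A' * n * (k : ℤ) ^ 2 + B * (k : ℤ) ^ 3 =
      5 * (A * ((n : ℤ) ^ 3 * (k : ℤ) ^ 0)) - 2 * (A' * ((n : ℤ) ^ 1 * (k : ℤ) ^ 2)) + B * ((n : ℤ) ^ 0 * (k : ℤ) ^ 3) := by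
      ring
    rw [e]
    constructor
    · linarith [u1.1, u2.2, u3.1]
    · linarith [u1.2, u2.1, u3.2]
  · have u1 := term A' 3 (by norm_num) a2 3 0 rfl
    have u2 := term B 15 (by norm_num) a3 2 1 rfl
    have u3 := term X 15 (by norm_num) a4 0 3 rfl
    rw [abs_le] at u1 u2 u3 ⊢
    unfold F2
    have e : A' * (n : ℤ) ^ 3 + 2 * B * (n : ℤ) ^ 2 * k - 5 * X * (k : ℤ) ^ 3 =
      A' * ((n : ℤ) ^ 3 * (k : ℤ) ^ 0) + 2 * (B * ((n : ℤ) ^ 2 * (k : ℤ) ^ 1)) - 5 * (X * ((n : ℤ) ^ 0 * (k : ℤ) ^ 3)) := by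
      ring
    rw [e]
    constructor
    · linarith [u1.1, u2.1, u3.2]
    · linarith [u1.2, u2.2, u3.1]

/-- for a nonzero resultant the number of admissible pairs `(h, p)` -/
theorem P6c_first {N K y P : ℕ} (hN : 1 ≤ N) (hy : Squarefree y) {v : ℤ × ℤ × ℤ × ℤ}
    (hv : Rf v.1 v.2.1 v.2.2.1 v.2.2.2 ≠ 0) (D1 D2 : ℝ) (hD1 : 0 ≤ D1) (hD2 : 0 ≤ D2) (hP : 1 ≤ P)
    (h1 : ∀ h ∈ Ico P (2 * P), (3 : ℝ) ^ h.primeFactors.card ≤ D1) (h2 : (2 : ℝ) ^ y.primeFactors.card ≤ D2) :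
    ∑ h ∈ Ico P (2 * P), ∑ p ∈ pairs N K y, P6c_c h p v ≤
      ((Rf v.1 v.2.1 v.2.2.1 v.2.2.2).natAbs.divisors.card : ℝ) *
        (D1 * D2 * (1 + 2 * K * N * Int.gcd v.1 v.2.1 / (P * y))) := by
  obtain ⟨A, A', B, X⟩ := v
  simp only at hv ⊢
  have hy0 : (0 : ℝ) < y := by exact_mod_cast Nat.pos_of_ne_zero hy.ne_zero
  have hP0 : (0 : ℝ) < P := by exact_mod_cast hP
  set R := (Rf A A' B X).natAbs with hR
  have hR0 : R ≠ 0 := by rw [hR]; exact Int.natAbs_ne_zero.2 hv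
  have hA : A ≠ 0 ∨ A' ≠ 0 := by
    by_contra hc
    push Not at hc
    apply hv
    rw [hc.1, hc.2]
    unfold Rf
    ring
  have step : ∀ h ∈ Ico P (2 * P), ∑ p ∈ pairs N K y, P6c_c h p (A, A', B, X) ≤
      if h ∣ R then D1 * D2 * (1 + 2 * K * N * Int.gcd A A' / (P * y)) else 0 := by
    intro h hh
    have hhP := (mem_Ico.1 hh).1
    split_ifs with hd
    · calc ∑ p ∈ pairs N K y, P6c_c h p (A, A', B, X)
          ≤ ∑ p ∈ pairs N K y, (if (Nat.Coprime h (5 * (p.1 * p.2)) ∧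
              ((h : ℤ) ∣ F1 A A' B p.1 p.2) ∧ ((h : ℤ) ∣ F2 A' B X p.1 p.2)) then (1 : ℝ) else 0) := by
            refine sum_le_sum fun p _ => ?_
            unfold P6c_c
            simp only
            split_ifs <;> first | tauto | norm_num
        _ = (((pairs N K y).filter (fun p => Nat.Coprime h (5 * (p.1 * p.2)) ∧
              ((h : ℤ) ∣ F1 A A' B p.1 p.2) ∧ ((h : ℤ) ∣ F2 A' B X p.1 p.2))).card : ℝ) := by
            rw [card_filter]; push_cast; rfl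
        _ ≤ 3 ^ h.primeFactors.card * 2 ^ y.primeFactors.card *
              (1 + 2 * K * N * Int.gcd A A' / (h * y)) := pair_count h y N K hN (by omega) hy A A' B X hA
        _ ≤ D1 * D2 * (1 + 2 * K * N * Int.gcd A A' / (P * y)) := by
            have hPh : (P : ℝ) ≤ h := by exact_mod_cast hhP
            apply mul_le_mul
            · exact mul_le_mul (h1 h hh) h2 (by positivity) hD1
            · have : 2 * (K : ℝ) * N * Int.gcd A A' / (h * y) ≤ 2 * (K : ℝ) * N * Int.gcd A A' / (P * y) := by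
                apply div_le_div_of_nonneg_left (by positivity) (by positivity)
                exact mul_le_mul_of_nonneg_right hPh hy0.le
              linarith
            · positivity
            · positivity
    · apply le_of_eq
      apply sum_eq_zero
      intro p _
      unfold P6c_c
      simp only
      rw [if_neg]
      rintro ⟨hc, hd1, hd2, -⟩
      apply hd
      have hc' : IsCoprime (h : ℤ) (5 * (p.2 : ℤ)) := by
        have : IsCoprime (h : ℤ) ((5 * (p.1 * p.2) : ℕ) : ℤ) := Nat.isCoprime_iff_coprime.2 hc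
        push_cast at this
        refine this.of_isCoprime_of_dvd_right ?_
        exact ⟨(p.1 : ℤ), by ring⟩
      have h3 := dvd_Rf h A A' B X p.1 p.2 hc' hd1 hd2
      rw [hR]
      exact Int.natCast_dvd.1 h3
  calc ∑ h ∈ Ico P (2 * P), ∑ p ∈ pairs N K y, P6c_c h p (A, A', B, X)
      ≤ ∑ h ∈ Ico P (2 * P), (if h ∣ R then D1 * D2 * (1 + 2 * K * N * Int.gcd A A' / (P * y)) else 0) := sum_le_sum step
    _ = (((Ico P (2 * P)).filter (fun h => h ∣ R)).card : ℝ) * (D1 * D2 * (1 + 2 * K * N * Int.gcd A A' / (P * y))) := by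
        rw [← sum_filter, sum_const, nsmul_eq_mul]
    _ ≤ _ := by
        apply mul_le_mul_of_nonneg_right _ (by positivity)
        norm_cast
        apply card_le_card
        intro h hh
        rw [mem_filter] at hh
        exact Nat.mem_divisors.2 ⟨hh.2, hR0⟩

/-- for every `v` the number of admissible pairs `(h, p)`, from the divisors of the cubic forms -/
theorem P6c_second {N K y P : ℕ} {v : ℤ × ℤ × ℤ × ℤ} (D : ℝ) (hD : 0 ≤ D)
    (h1 : ∀ p ∈ pairs N K y, ∀ n : ℕ, 0 < n →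
      (n = (F1 v.1 v.2.1 v.2.2.1 p.1 p.2).natAbs ∨ n = (F2 v.2.1 v.2.2.1 v.2.2.2 p.1 p.2).natAbs) →
      (n.divisors.card : ℝ) ≤ D) :
    ∑ h ∈ Ico P (2 * P), ∑ p ∈ pairs N K y, P6c_c h p v ≤ ((pairs N K y).card : ℝ) * D := by
  rw [sum_comm, ← nsmul_eq_mul, ← sum_const]
  refine sum_le_sum fun p hp => ?_
  by_cases hF : F1 v.1 v.2.1 v.2.2.1 p.1 p.2 ≠ 0 ∨ F2 v.2.1 v.2.2.1 v.2.2.2 p.1 p.2 ≠ 0
  · have key : ∀ n : ℕ, 0 < n →
        (n = (F1 v.1 v.2.1 v.2.2.1 p.1 p.2).natAbs ∨ n = (F2 v.2.1 v.2.2.1 v.2.2.2 p.1 p.2).natAbs) →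
        ∑ h ∈ Ico P (2 * P), P6c_c h p v ≤ D := by
      intro n hn hor
      refine le_trans ?_ (h1 p hp n hn hor)
      calc ∑ h ∈ Ico P (2 * P), P6c_c h p v ≤ ∑ h ∈ Ico P (2 * P), (if h ∣ n then (1 : ℝ) else 0) := by
            refine sum_le_sum fun h _ => ?_
            unfold P6c_c
            split_ifs with hc hd hd
            · exact le_refl _
            · exfalso
              apply hd
              rcases hor with h' | h'
              · rw [h']; exact Int.natCast_dvd.1 hc.2.1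
              · rw [h']; exact Int.natCast_dvd.1 hc.2.2.1
            · norm_num
            · exact le_refl _
        _ = (((Ico P (2 * P)).filter (fun h => h ∣ n)).card : ℝ) := by
            rw [card_filter]; push_cast; rfl
        _ ≤ (n.divisors.card : ℝ) := by
            norm_cast
            apply card_le_card
            intro h hh
            rw [mem_filter] at hh
            exact Nat.mem_divisors.2 ⟨hh.2, hn.ne'⟩
    rcases hF with h' | h'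
    · exact key _ (Int.natAbs_pos.2 h') (Or.inl rfl)
    · exact key _ (Int.natAbs_pos.2 h') (Or.inr rfl)
  · have : ∑ h ∈ Ico P (2 * P), P6c_c h p v = 0 := by
      apply sum_eq_zero
      intro h _
      unfold P6c_c
      rw [if_neg]
      rintro ⟨-, -, -, hc⟩
      exact hF hc
    rw [this]
    exact hD

theorem P6c_vbox_sum (N K : ℕ) (hN : 1 ≤ N) (Cg Lg : ℝ)
    (hg : ∑ a ∈ Icc (-((3 * K : ℕ) : ℤ)) ((3 * K : ℕ) : ℤ), ∑ b ∈ Icc (-((3 * K : ℕ) : ℤ)) ((3 * K : ℕ) : ℤ), (Int.gcd a b : ℝ) ≤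
      Cg * ((3 * K : ℕ) : ℝ) ^ 2 * Lg) :
    ∑ v ∈ vbox N K, (Int.gcd v.1 v.2.1 : ℝ) ≤ (31 * N : ℝ) ^ 2 * (Cg * ((3 * K : ℕ) : ℝ) ^ 2 * Lg) := by
  unfold vbox
  rw [sum_product]
  have hN' : (1 : ℝ) ≤ N := by exact_mod_cast hN
  have h1 : ∀ a : ℤ, ∑ w ∈ Icc (-(3 * K : ℤ)) (3 * K) ×ˢ Icc (-(15 * N : ℤ)) (15 * N) ×ˢ Icc (-(15 * N : ℤ)) (15 * N),
      (Int.gcd a w.1 : ℝ) = (30 * N + 1 : ℝ) ^ 2 * ∑ b ∈ Icc (-(3 * K : ℤ)) (3 * K), (Int.gcd a b : ℝ) := by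
    intro a
    rw [sum_product, mul_sum]
    refine sum_congr rfl fun b _ => ?_
    simp only
    rw [sum_const, card_product, Int.card_Icc]
    have : (15 * (N : ℤ) + 1 - -(15 * N)).toNat = 30 * N + 1 := by omega
    rw [this]
    simp only [nsmul_eq_mul]
    push_cast
    ring
  rw [sum_congr rfl fun a _ => h1 a, ← mul_sum]
  push_cast at hg ⊢
  have h0 : (0 : ℝ) ≤ ∑ a ∈ Icc (-(3 * K : ℤ)) (3 * K), ∑ b ∈ Icc (-(3 * K : ℤ)) (3 * K), (Int.gcd a b : ℝ) := by positivity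
  calc (30 * N + 1 : ℝ) ^ 2 * ∑ a ∈ Icc (-(3 * K : ℤ)) (3 * K), ∑ b ∈ Icc (-(3 * K : ℤ)) (3 * K), (Int.gcd a b : ℝ)
      ≤ (31 * N : ℝ) ^ 2 * ∑ a ∈ Icc (-(3 * K : ℤ)) (3 * K), ∑ b ∈ Icc (-(3 * K : ℤ)) (3 * K), (Int.gcd a b : ℝ) := by
        apply mul_le_mul_of_nonneg_right _ h0
        apply pow_le_pow_left₀ (by positivity)
        linarith
    _ ≤ _ := mul_le_mul_of_nonneg_left hg (by positivity)

theorem P6c_vbox_card (N K : ℕ) (hN : 1 ≤ N) (hK : 1 ≤ K) : ((vbox N K).card : ℝ) ≤ 49 * K ^ 2 * (31 * N) ^ 2 := by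
  unfold vbox
  rw [card_product, card_product, card_product, Int.card_Icc, Int.card_Icc]
  have e1 : (15 * (N : ℤ) + 1 - -(15 * N)).toNat = 30 * N + 1 := by omega
  have e2 : (3 * (K : ℤ) + 1 - -(3 * K)).toNat = 6 * K + 1 := by omega
  rw [e1, e2]
  have hN' : (1 : ℝ) ≤ N := by exact_mod_cast hN
  have hK' : (1 : ℝ) ≤ K := by exact_mod_cast hK
  push_cast
  have a1 : (6 * K + 1 : ℝ) ≤ 7 * K := by linarith
  have a2 : (30 * N + 1 : ℝ) ≤ 31 * N := by linarith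
  calc (6 * K + 1 : ℝ) * ((6 * K + 1) * ((30 * N + 1) * (30 * N + 1))) ≤ (7 * K) * ((7 * K) * ((31 * N) * (31 * N))) := by
        gcongr
    _ = _ := by ring

/-- P6c -/
theorem dual_count (ε : ℝ) (hε : 0 < ε) : ∃ C : ℝ, 1 ≤ C ∧ ∀ T N K y P : ℕ, 1 ≤ K → K ≤ N → N ≤ T →
    1 ≤ P → P ≤ T ^ 4 → Squarefree y →
    ((dualSet N K y P).card : ℝ) ≤ C * (T : ℝ) ^ ε *
      ((K : ℝ) ^ 2 * N ^ 2 * (1 + K * N / (y * P)) + (N : ℝ) ^ 3 * K / y) := by
  obtain ⟨Ca, hCa1, hCa⟩ := P6c_div (ε / 5) (by positivity) 400000000 (by norm_num) 6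
  obtain ⟨Cb, hCb1, hCb⟩ := P6c_div (ε / 5) (by positivity) 2 (by norm_num) 4
  obtain ⟨Cc, hCc1, hCc⟩ := P6c_div (ε / 5) (by positivity) 1 (by norm_num) 2
  obtain ⟨Cd, hCd1, hCd⟩ := P6c_log (ε / 5) (by positivity)
  obtain ⟨Ce, hCe1, hCe⟩ := P6c_div (ε / 5) (by positivity) 108 (by norm_num) 4
  obtain ⟨Cg0, hCg0⟩ := gcd_sum
  obtain ⟨Cz0, hCz0⟩ := degenerate
  set Cg := |Cg0| with hCg
  set Cz := |Cz0| with hCz
  have hCg_nn : 0 ≤ Cg := abs_nonneg _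
  have hCz_nn : 0 ≤ Cz := abs_nonneg _
  refine ⟨Ca * Cb ^ 2 * Cc * (47089 + 17298 * Cg * Cd) + 225 * Cz * Cc * Ce, ?_, ?_⟩
  · have h1 : 1 ≤ Ca * Cb ^ 2 * Cc :=
      one_le_mul_of_one_le_of_one_le (one_le_mul_of_one_le_of_one_le hCa1 (one_le_pow₀ hCb1)) hCc1
    have h2 : 1 ≤ 47089 + 17298 * Cg * Cd := by
      have : 0 ≤ 17298 * Cg * Cd := by positivity
      linarith
    have h3 : 0 ≤ 225 * Cz * Cc * Ce := by positivity
    have h4 := one_le_mul_of_one_le_of_one_le h1 h2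
    linarith
  intro T N K y P hK hKN hNT hP hPT hy
  have hN : 1 ≤ N := hK.trans hKN
  have hT : 1 ≤ T := hN.trans hNT
  have hT' : (1 : ℝ) ≤ T := by exact_mod_cast hT
  have hN' : (1 : ℝ) ≤ N := by exact_mod_cast hN
  have hK' : (1 : ℝ) ≤ K := by exact_mod_cast hK
  have hP' : (1 : ℝ) ≤ P := by exact_mod_cast hP
  have hy0 : (0 : ℝ) < y := by exact_mod_cast Nat.pos_of_ne_zero hy.ne_zero
  set t : ℝ := (T : ℝ) ^ (ε / 5) with ht
  have ht1 : 1 ≤ t := Real.one_le_rpow hT' (by positivity)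
  have ht5 : (T : ℝ) ^ ε = t ^ 5 := by
    rw [ht, ← Real.rpow_natCast, ← Real.rpow_mul (by linarith)]
    congr 1
    push_cast
    ring
  rcases (pairs N K y).eq_empty_or_nonempty with hemp | ⟨p0, hp0⟩
  · have : dualSet N K y P = ∅ := by
      rw [eq_empty_iff_forall_notMem]
      intro t ht'
      unfold dualSet at ht'
      simp only [mem_filter, mem_product, hemp, notMem_empty, false_and, and_false] at ht'
    rw [this]
    simp only [card_empty, Nat.cast_zero]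
    have : 0 ≤ Ca * Cb ^ 2 * Cc * (47089 + 17298 * Cg * Cd) + 225 * Cz * Cc * Ce := by positivity
    positivity
  have hyle : (y : ℝ) ≤ 1 * (T : ℝ) ^ 2 := by
    obtain ⟨q1, q2, q3, q4, q5⟩ := P6c_mem_pairs hp0
    have h1 : y ≤ p0.1 * p0.2 := Nat.le_of_dvd (Nat.mul_pos q1 q3) q5
    have h2 : p0.1 * p0.2 ≤ T * T := Nat.mul_le_mul (q2.trans hNT) (q4.trans (hKN.trans hNT))
    have h3 : y ≤ T * T := h1.trans h2
    have : (y : ℝ) ≤ T * T := by exact_mod_cast h3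
    linarith [this, (by ring : (T : ℝ) * T = 1 * (T : ℝ) ^ 2)]
  have hy2 : (2 : ℝ) ^ y.primeFactors.card ≤ Cc * t :=
    (P6c_two_pow y (Nat.pos_of_ne_zero hy.ne_zero)).trans (hCc T hT y (Nat.pos_of_ne_zero hy.ne_zero) hyle)
  have hh3 : ∀ h ∈ Ico P (2 * P), (3 : ℝ) ^ h.primeFactors.card ≤ (Cb * t) ^ 2 := by
    intro h hh
    obtain ⟨h1, h2⟩ := mem_Ico.1 hh
    have hpos : 0 < h := by omega
    refine (P6c_three_pow h hpos).trans (pow_le_pow_left₀ (by positivity) (hCb T hT h hpos ?_) 2)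
    have h3 : h ≤ 2 * T ^ 4 := by omega
    exact_mod_cast h3
  -- splitting
  rw [P6c_card, ← sum_filter_add_sum_filter_not (vbox N K) (fun v => Rf v.1 v.2.1 v.2.2.1 v.2.2.2 = 0)]
  -- degenerate part
  have partB : ∑ v ∈ (vbox N K).filter (fun v => Rf v.1 v.2.1 v.2.2.1 v.2.2.2 = 0),
      ∑ h ∈ Ico P (2 * P), ∑ p ∈ pairs N K y, P6c_c h p v ≤ 225 * Cz * Cc * Ce * t ^ 5 * ((N : ℝ) ^ 3 * K / y) := by
    have h1 : ∀ v ∈ (vbox N K).filter (fun v => Rf v.1 v.2.1 v.2.2.1 v.2.2.2 = 0),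
        ∑ h ∈ Ico P (2 * P), ∑ p ∈ pairs N K y, P6c_c h p v ≤ (Cc * t * (N * K / y)) * (Ce * t) := by
      intro v hv
      have hv' := (mem_filter.1 hv).1
      refine (P6c_second (Ce * t) (by positivity) ?_).trans ?_
      · intro p hp n hn hor
        refine hCe T hT n hn ?_
        obtain ⟨f1, f2⟩ := P6c_F_le hKN hNT hv' hp
        have : (n : ℤ) ≤ 108 * (T : ℤ) ^ 4 := by
          rcases hor with h' | h'
          · rw [h', Int.natCast_natAbs]; exact f1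
          · rw [h', Int.natCast_natAbs]; exact f2
        exact_mod_cast this
      · apply mul_le_mul_of_nonneg_right _ (by positivity)
        refine (pairs_card N K y hy).trans ?_
        exact mul_le_mul_of_nonneg_right hy2 (by positivity)
    have h2 : (((vbox N K).filter (fun v => Rf v.1 v.2.1 v.2.2.1 v.2.2.2 = 0)).card : ℝ) ≤ Cz * (15 * N) ^ 2 := by
      have h3 := hCz0 (15 * N) (by omega)
      have h4 : ((vbox N K).filter (fun v => Rf v.1 v.2.1 v.2.2.1 v.2.2.2 = 0)) ⊆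
          ((Icc (-((15 * N : ℕ) : ℤ)) ((15 * N : ℕ) : ℤ) ×ˢ Icc (-((15 * N : ℕ) : ℤ)) ((15 * N : ℕ) : ℤ) ×ˢ
            Icc (-((15 * N : ℕ) : ℤ)) ((15 * N : ℕ) : ℤ) ×ˢ Icc (-((15 * N : ℕ) : ℤ)) ((15 * N : ℕ) : ℤ)).filter
            (fun v => Rf v.1 v.2.1 v.2.2.1 v.2.2.2 = 0)) := by
        apply filter_subset_filter
        unfold vbox
        have hKN' : (K : ℤ) ≤ N := by exact_mod_cast hKN
        intro v hv
        simp only [mem_product, mem_Icc] at hv ⊢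
        push_cast
        refine ⟨⟨by linarith [hv.1.1], by linarith [hv.1.2]⟩, ⟨by linarith [hv.2.1.1], by linarith [hv.2.1.2]⟩,
          ⟨by linarith [hv.2.2.1.1], by linarith [hv.2.2.1.2]⟩, ⟨by linarith [hv.2.2.2.1], by linarith [hv.2.2.2.2]⟩⟩
      have h5 : (((vbox N K).filter (fun v => Rf v.1 v.2.1 v.2.2.1 v.2.2.2 = 0)).card : ℝ) ≤
          Cz0 * ((15 * N : ℕ) : ℝ) ^ 2 := le_trans (by exact_mod_cast card_le_card h4) h3
      refine h5.trans ?_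
      push_cast
      exact mul_le_mul_of_nonneg_right (le_abs_self _) (by positivity)
    calc _ ≤ ∑ v ∈ (vbox N K).filter (fun v => Rf v.1 v.2.1 v.2.2.1 v.2.2.2 = 0), (Cc * t * (N * K / y)) * (Ce * t) :=
          sum_le_sum h1
      _ = (((vbox N K).filter (fun v => Rf v.1 v.2.1 v.2.2.1 v.2.2.2 = 0)).card : ℝ) * ((Cc * t * (N * K / y)) * (Ce * t)) := by
          rw [sum_const, nsmul_eq_mul]
      _ ≤ (Cz * (15 * N) ^ 2) * ((Cc * t * (N * K / y)) * (Ce * t)) := mul_le_mul_of_nonneg_right h2 (by positivity)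
      _ = (225 * Cz * Cc * Ce * ((N : ℝ) ^ 3 * K / y)) * t ^ 2 := by ring
      _ ≤ (225 * Cz * Cc * Ce * ((N : ℝ) ^ 3 * K / y)) * t ^ 5 := by
          apply mul_le_mul_of_nonneg_left _ (by positivity)
          exact pow_le_pow_right₀ ht1 (by norm_num)
      _ = _ := by ring
  -- main part
  have partA : ∑ v ∈ (vbox N K).filter (fun v => ¬ Rf v.1 v.2.1 v.2.2.1 v.2.2.2 = 0),
      ∑ h ∈ Ico P (2 * P), ∑ p ∈ pairs N K y, P6c_c h p v ≤
      Ca * Cb ^ 2 * Cc * (47089 + 17298 * Cg * Cd) * t ^ 5 * ((K : ℝ) ^ 2 * N ^ 2 * (1 + K * N / (y * P))) := by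
    have h1 : ∀ v ∈ (vbox N K).filter (fun v => ¬ Rf v.1 v.2.1 v.2.2.1 v.2.2.2 = 0),
        ∑ h ∈ Ico P (2 * P), ∑ p ∈ pairs N K y, P6c_c h p v ≤
        (Ca * t) * ((Cb * t) ^ 2 * (Cc * t) * (1 + 2 * K * N * Int.gcd v.1 v.2.1 / (P * y))) := by
      intro v hv
      obtain ⟨hv1, hv2⟩ := mem_filter.1 hv
      refine (P6c_first hN hy hv2 ((Cb * t) ^ 2) (Cc * t) (by positivity) (by positivity) hP hh3 hy2).trans ?_
      apply mul_le_mul_of_nonneg_right _ (by positivity)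
      refine hCa T hT _ (Int.natAbs_pos.2 hv2) ?_
      have := P6c_Rf_le hKN hNT hv1
      rw [← Int.natCast_natAbs] at this
      exact_mod_cast this
    have hgs := P6c_vbox_sum N K hN Cg (Cd * t) (by
      refine (hCg0 (3 * K) (by omega)).trans ?_
      apply mul_le_mul
      · exact mul_le_mul_of_nonneg_right (le_abs_self _) (by positivity)
      · exact hCd T K hK (hKN.trans hNT)
      · have : (1 : ℝ) ≤ ((3 * K : ℕ) : ℝ) := by push_cast; linarith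
        have := Real.log_nonneg this
        linarith
      · positivity)
    have hvc := P6c_vbox_card N K hN hK
    calc _ ≤ ∑ v ∈ (vbox N K).filter (fun v => ¬ Rf v.1 v.2.1 v.2.2.1 v.2.2.2 = 0),
          (Ca * t) * ((Cb * t) ^ 2 * (Cc * t) * (1 + 2 * K * N * Int.gcd v.1 v.2.1 / (P * y))) := sum_le_sum h1
      _ ≤ ∑ v ∈ vbox N K,
          (Ca * t) * ((Cb * t) ^ 2 * (Cc * t) * (1 + 2 * K * N * Int.gcd v.1 v.2.1 / (P * y))) := by
          apply sum_le_sum_of_subset_of_nonneg (filter_subset _ _)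
          intro v _ _
          positivity
      _ = (Ca * t) * ((Cb * t) ^ 2 * (Cc * t)) * ((vbox N K).card + 2 * K * N / (P * y) * ∑ v ∈ vbox N K, (Int.gcd v.1 v.2.1 : ℝ)) := by
          have hterm : ∀ v : ℤ × ℤ × ℤ × ℤ,
              (Ca * t) * ((Cb * t) ^ 2 * (Cc * t) * (1 + 2 * K * N * Int.gcd v.1 v.2.1 / (P * y))) =
              (Ca * t) * ((Cb * t) ^ 2 * (Cc * t)) +
              (Ca * t) * ((Cb * t) ^ 2 * (Cc * t)) * (2 * K * N / (P * y)) * (Int.gcd v.1 v.2.1 : ℝ) := by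
            intro v; ring
          rw [sum_congr rfl fun v _ => hterm v, sum_add_distrib, sum_const, nsmul_eq_mul, ← mul_sum]
          ring
      _ ≤ (Ca * t) * ((Cb * t) ^ 2 * (Cc * t)) * (49 * K ^ 2 * (31 * N) ^ 2 + 2 * K * N / (P * y) *
            ((31 * N : ℝ) ^ 2 * (Cg * ((3 * K : ℕ) : ℝ) ^ 2 * (Cd * t)))) := by
          apply mul_le_mul_of_nonneg_left _ (by positivity)
          apply add_le_add hvc
          exact mul_le_mul_of_nonneg_left hgs (by positivity)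
      _ = Ca * Cb ^ 2 * Cc * t ^ 4 * ((K : ℝ) ^ 2 * N ^ 2) * (47089 + 17298 * Cg * Cd * t * (K * N / (y * P))) := by
          push_cast
          field_simp
          ring
      _ ≤ Ca * Cb ^ 2 * Cc * t ^ 4 * ((K : ℝ) ^ 2 * N ^ 2) * ((47089 + 17298 * Cg * Cd) * t * (1 + K * N / (y * P))) := by
          apply mul_le_mul_of_nonneg_left _ (by positivity)
          have q1 : 0 ≤ (K : ℝ) * N / (y * P) := by positivity
          have q2 : 0 ≤ 17298 * Cg * Cd * t := by positivity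
          have q3 : 0 ≤ t * ((K : ℝ) * N / (y * P)) := by positivity
          nlinarith
      _ = _ := by ring
  rw [ht5]
  calc _ ≤ 225 * Cz * Cc * Ce * t ^ 5 * ((N : ℝ) ^ 3 * K / y) +
        Ca * Cb ^ 2 * Cc * (47089 + 17298 * Cg * Cd) * t ^ 5 * ((K : ℝ) ^ 2 * N ^ 2 * (1 + K * N / (y * P))) :=
        add_le_add partB partA
    _ ≤ _ := by
      have w1 : 0 ≤ 225 * Cz * Cc * Ce * t ^ 5 * ((K : ℝ) ^ 2 * N ^ 2 * (1 + K * N / (y * P))) := by positivity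
      have w2 : 0 ≤ Ca * Cb ^ 2 * Cc * (47089 + 17298 * Cg * Cd) * t ^ 5 * ((N : ℝ) ^ 3 * K / y) := by positivity
      nlinarith

end Pool.Agent.helper3.FT
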